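import Mathlib
import Pool.Agent.H.MP_3166b2_lc.A

namespace Pool.Agent.Results.MP_3166b2_lc.Main

open MeasureTheory TopologicalSpace Pool.Agent.H.MP_3166b2_lc

theorem result (m : MetricSpace Q)
    (hm : m.toPseudoMetricSpace.toUniformSpace.toTopologicalSpace = tQ) :
    ¬ ∃ B : Set (X × X), MeasurableSet[borel (X × X)] B ∧
      ∀ G H : X, Distal m.dist G.1 → Distal m.dist H.1 → ((G, H) ∈ B ↔ Conj G.1 H.1) := by
  rintro ⟨B, hB, h⟩
  have hd := @continuous_dist Q m.toPseudoMetricSpace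
  rw [hm] at hd
  obtain ⟨G, A, hA, c, e, d, k⟩ := main (d := m.dist) hd fun x y hxy => (@dist_pos Q m x y).2 hxy
  letI : MeasurableSpace (X × X) := borel _
  haveI : BorelSpace (X × X) := ⟨rfl⟩
  have m : Continuous fun y => ((⟨G 1 y, e 1 y⟩, ⟨G 0 y, e 0 y⟩) : X × X) :=
    ((c 1).subtype_mk _).prodMk ((c 0).subtype_mk _)
  refine hA ?_
  convert m.measurable hB using 1
  ext y
  exact (k y).symm.trans (h ⟨_, e 1 y⟩ ⟨_, e 0 y⟩ (d 1 y) (d 0 y)).symm

end Pool.Agent.Results.MP_3166b2_lc.Main
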